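import Mathlib
import Pool.Agent.TH61.K13.Poly

set_option autoImplicit false

namespace Pool.Agent.TH61.K13

open Finset Pool.Agent.Helper843.Kiss

/-- the slope of f to the right of 1/2 -/
lemma slope (t : ℝ) (h0 : 1 / 2 ≤ t) (h1 : t ≤ 1 / 2 + 11 / 8000) :
    0 < 325200000 - 50 * t ^ 2 * (t + 2 / 5) ^ 2 * (t + 5 / 7) *
      (53212803 - 43394890 * t - 41400100 * t ^ 2 + 40817000 * t ^ 3) := by
  exact piece (1 / 2) (11 / 8000) [(18007881 / 8), (-6437069037 / 4), (-3532431967 / 2), (4761840027 / 2), 3459475125, (-6302625000), (-14045850000), (-9183825000), (-2040850000)] t h0 (by linarith) (by simp only [ev]; ring) (by norm_num [low])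

lemma f_le (t e : ℝ) (ht : -5 / 7 ≤ t) (he : 0 ≤ e) (he1 : e ≤ 11 / 2000) (h : t ≤ 1 / 2 + e / 4) :
    f t ≤ 81300000 * e := by
  rcases le_total t (1 / 2) with h2 | h2
  · have := f_nonpos t ht h2
    nlinarith
  · have h3 := slope t h2 (by linarith)
    have h4 := mul_nonneg (sub_nonneg.2 h2) h3.le
    have e1 : (t - 1 / 2) * (325200000 - 50 * t ^ 2 * (t + 2 / 5) ^ 2 * (t + 5 / 7) *
      (53212803 - 43394890 * t - 41400100 * t ^ 2 + 40817000 * t ^ 3)) =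
        325200000 * (t - 1 / 2) - f t := by
      unfold f; ring
    rw [e1] at h4
    linarith

section gram

variable {V : Type*} [NormedAddCommGroup V] [InnerProductSpace ℝ V]

lemma wnorm' {ι : Type*} (c : ℝ) (S : Finset ι) (y : ι → V) (l : ι → ℝ) (hl : ∀ i ∈ S, 0 ≤ l i)
    (hy : ∀ i ∈ S, ‖y i‖ = 1)
    (hij : ∀ i ∈ S, ∀ j ∈ S, i ≠ j → inner ℝ (y i) (y j) ≤ c) :
    ‖∑ i ∈ S, l i • y i‖ ^ 2 ≤ (1 - c) * ∑ i ∈ S, l i ^ 2 + c * (∑ i ∈ S, l i) ^ 2 := by
  classical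
  rw [← real_inner_self_eq_norm_sq, sum_inner]
  simp_rw [inner_sum, real_inner_smul_left, real_inner_smul_right]
  have h1 : ∀ i ∈ S, ∀ j ∈ S, l i * (l j * inner ℝ (y i) (y j)) ≤
      c * (l i * l j) + (if i = j then (1 - c) * l i ^ 2 else 0) := by
    intro i hi j hj
    split_ifs with h
    · subst h
      rw [real_inner_self_eq_norm_sq, hy i hi]
      nlinarith
    · have := mul_le_mul_of_nonneg_left (hij i hi j hj h) (mul_nonneg (hl i hi) (hl j hj))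
      linarith
  calc ∑ i ∈ S, ∑ j ∈ S, l i * (l j * inner ℝ (y i) (y j))
      ≤ ∑ i ∈ S, ∑ j ∈ S, (c * (l i * l j) + (if i = j then (1 - c) * l i ^ 2 else 0)) :=
        sum_le_sum fun i hi => sum_le_sum fun j hj => h1 i hi j hj
    _ = (1 - c) * ∑ i ∈ S, l i ^ 2 + c * (∑ i ∈ S, l i) ^ 2 := by
        simp_rw [sum_add_distrib]
        rw [sq (∑ i ∈ S, l i), sum_mul_sum, add_comm, mul_sum, mul_sum]
        congr 1
        · refine sum_congr rfl fun i hi => ?_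
          simp [hi]
        · refine sum_congr rfl fun i _ => ?_
          rw [mul_sum]

lemma gram' {ι : Type*} (c : ℝ) (hc0 : 0 ≤ c) (hc1 : c ≤ 25 / 49) (S : Finset ι) (y : ι → V) (e : V)
    (he : ‖e‖ = 1) (hy : ∀ i ∈ S, ‖y i‖ = 1)
    (hij : ∀ i ∈ S, ∀ j ∈ S, i ≠ j → inner ℝ (y i) (y j) ≤ c)
    (hs : ∀ i ∈ S, 5 / 7 ≤ inner ℝ e (y i)) :
    (1 - c + c * (#S : ℝ)) * ∑ i ∈ S, (inner ℝ e (y i)) ^ 2 - c * (∑ i ∈ S, inner ℝ e (y i)) ^ 2
      ≤ (1 - c) * (1 - c + c * (#S : ℝ)) := by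
  set s : ι → ℝ := fun i => inner ℝ e (y i) with hsdef
  set m : ℝ := (#S : ℝ) with hm
  have hm0 : 0 ≤ m := by positivity
  set σ : ℝ := ∑ i ∈ S, s i with hσ
  obtain ⟨A, hA⟩ : ∃ A, A = 1 - c + c * m := ⟨_, rfl⟩
  have hA0 : 0 < A := by rw [hA]; nlinarith [mul_nonneg hc0 hm0]
  have key : ∀ l : ι → ℝ, (∀ i ∈ S, 0 ≤ l i) →
      (∑ i ∈ S, l i * s i) ^ 2 ≤ (1 - c) * ∑ i ∈ S, l i ^ 2 + c * (∑ i ∈ S, l i) ^ 2 := by
    intro l hl
    refine le_trans ?_ (wnorm' c S y l hl hy hij)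
    have h1 : ∑ i ∈ S, l i * s i = inner ℝ e (∑ i ∈ S, l i • y i) := by
      rw [inner_sum]
      refine sum_congr rfl fun i _ => ?_
      rw [real_inner_smul_right]
    rw [h1]
    have h2 := abs_real_inner_le_norm e (∑ i ∈ S, l i • y i)
    rw [he, one_mul] at h2
    exact sq_le_sq' (by linarith [neg_abs_le (inner ℝ e (∑ i ∈ S, l i • y i))])
      ((le_abs_self _).trans h2)
  have h1 := key (fun _ => 1) (fun _ _ => zero_le_one)
  simp only [one_mul, one_pow, sum_const, nsmul_eq_mul, mul_one] at h1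
  have hσ2 : σ ^ 2 ≤ m * A := by
    rw [hA]
    have : m * (1 - c + c * m) = (1 - c) * m + c * m ^ 2 := by ring
    rw [this]
    exact h1
  have hcσ : c * σ ≤ A * (5 / 7) := by
    apply le_of_sq_le_sq _ (by positivity)
    have h3 : (c * σ) ^ 2 ≤ c ^ 2 * (m * A) := by
      rw [mul_pow]
      exact mul_le_mul_of_nonneg_left hσ2 (sq_nonneg c)
    have h4 : c ^ 2 * m ≤ A * (25 / 49) := by
      have h5 : c * (c * m) ≤ (25 / 49) * (c * m) :=
        mul_le_mul_of_nonneg_right hc1 (mul_nonneg hc0 hm0)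
      nlinarith
    have h6 : c ^ 2 * m * A ≤ A * (25 / 49) * A := mul_le_mul_of_nonneg_right h4 hA0.le
    calc (c * σ) ^ 2 ≤ c ^ 2 * (m * A) := h3
      _ = c ^ 2 * m * A := by ring
      _ ≤ A * (25 / 49) * A := h6
      _ = (A * (5 / 7)) ^ 2 := by ring
  have h2 := key (fun i => A * s i - c * σ) (fun i hi => by
    have : A * (5 / 7) ≤ A * s i := mul_le_mul_of_nonneg_left (hs i hi) hA0.le
    show 0 ≤ A * s i - c * σ
    linarith)
  have e1 : ∑ i ∈ S, (A * s i - c * σ) = (1 - c) * σ := by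
    rw [sum_sub_distrib, ← mul_sum, sum_const, nsmul_eq_mul, hA]
    ring
  have e2 : ∑ i ∈ S, (A * s i - c * σ) * s i = A * ∑ i ∈ S, s i ^ 2 - c * σ ^ 2 := by
    have : ∀ i ∈ S, (A * s i - c * σ) * s i = A * s i ^ 2 - c * σ * s i := fun i _ => by ring
    rw [sum_congr rfl this, sum_sub_distrib, ← mul_sum, ← mul_sum]
    ring
  have e3 : ∑ i ∈ S, (A * s i - c * σ) ^ 2
      = A ^ 2 * ∑ i ∈ S, s i ^ 2 - 2 * A * c * σ ^ 2 + c ^ 2 * m * σ ^ 2 := by
    have : ∀ i ∈ S, (A * s i - c * σ) ^ 2 = A ^ 2 * s i ^ 2 - 2 * A * (c * σ) * s i + (c * σ) ^ 2 :=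
      fun i _ => by ring
    rw [sum_congr rfl this, sum_add_distrib, sum_sub_distrib, ← mul_sum, ← mul_sum, sum_const,
      nsmul_eq_mul]
    ring
  rw [e1, e2, e3] at h2
  set Q : ℝ := A * ∑ i ∈ S, s i ^ 2 - c * σ ^ 2 with hQ
  have h3 : Q ^ 2 ≤ (1 - c) * A * Q := by
    have : (1 - c) * (A ^ 2 * ∑ i ∈ S, s i ^ 2 - 2 * A * c * σ ^ 2 + c ^ 2 * m * σ ^ 2) + c * ((1 - c) * σ) ^ 2
        = (1 - c) * A * Q := by
      rw [hQ]
      have hcm : c * m = A - (1 - c) := by rw [hA]; ring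
      have : c ^ 2 * m * σ ^ 2 = c * (A - (1 - c)) * σ ^ 2 := by rw [← hcm]; ring
      rw [this]; ring
    linarith
  rw [← hA]
  by_contra hc
  push Not at hc
  have hQ0 : 0 < Q := lt_of_le_of_lt (mul_nonneg (by linarith) hA0.le) hc
  nlinarith

lemma three_bound' (X Y : ℝ) (hX : 0 ≤ X) (h1 : Y ≤ X ^ 2)
    (h2 : (1 + 2 * (4011 / 8000)) * Y ≤ (1 - 4011 / 8000) * (1 + 2 * (4011 / 8000) - 75 / 49)
      + (4011 / 8000) * X ^ 2 - 10 / 7 * (1 - 4011 / 8000) * X)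
    (h3 : 10 / 7 * X ≤ 1 / 2) : 226000000 * X + 1060000000 * Y < BB - 830000 := by
  unfold BB
  rcases le_total X (23 / 100) with h | h
  · nlinarith
  · nlinarith

/-- the local bound -/
lemma local_bound' {ι : Type*} (S : Finset ι) (y : ι → V) (e : V) (he : ‖e‖ = 1)
    (hy : ∀ i ∈ S, ‖y i‖ = 1)
    (hij : ∀ i ∈ S, ∀ j ∈ S, i ≠ j → inner ℝ (y i) (y j) ≤ 4011 / 8000)
    (hs : ∀ i ∈ S, 5 / 7 ≤ inner ℝ e (y i)) :
    ∑ i ∈ S, F (inner ℝ e (y i)) < BB - 830000 := by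
  classical
  have hg := gram' (4011 / 8000) (by norm_num) (by norm_num) S y e he hy hij hs
  have hs1 : ∀ i ∈ S, inner ℝ e (y i) ≤ 1 := by
    intro i hi
    have := real_inner_le_norm e (y i)
    rw [he, hy i hi] at this
    linarith
  rcases Nat.lt_or_ge (#S) 3 with h3 | h3
  · interval_cases hc : #S
    · rw [card_eq_zero] at hc
      subst hc
      norm_num [BB]
    · obtain ⟨i, hi⟩ := card_eq_one.1 hc
      subst hi
      have := J2 (inner ℝ e (y i)) (hs i (by simp)) (hs1 i (by simp))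
      simp only [sum_singleton]
      linarith
    · obtain ⟨i, j, hne, hi⟩ := card_eq_two.1 hc
      subst hi
      rw [sum_pair hne, sum_pair hne] at hg
      rw [sum_pair hne]
      have a1 := hs i (by simp)
      have a2 := hs j (by simp)
      refine pair' _ _ a1 a2 ?_
      push_cast at hg
      set p := inner ℝ e (y i)
      set q := inner ℝ e (y j)
      have b1 : p ^ 2 + q ^ 2 - 2 * (4011 / 8000) * (p * q) ≤ 1 - (4011 / 8000) ^ 2 := by nlinarith
      nlinarith [sq_nonneg (p - q)]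
  · set m : ℝ := (#S : ℝ) with hm
    have hm3 : (3 : ℝ) ≤ m := by rw [hm]; exact_mod_cast h3
    set x : ι → ℝ := fun i => inner ℝ e (y i) - 5 / 7 with hx
    have hx0 : ∀ i ∈ S, 0 ≤ x i := fun i hi => sub_nonneg.2 (hs i hi)
    set X : ℝ := ∑ i ∈ S, x i with hX
    set Y : ℝ := ∑ i ∈ S, x i ^ 2 with hY
    have e1 : ∑ i ∈ S, inner ℝ e (y i) = X + m * (5 / 7) := by
      rw [hX, hx]
      simp only [sum_sub_distrib, sum_const, nsmul_eq_mul]
      ring
    have e2 : ∑ i ∈ S, (inner ℝ e (y i)) ^ 2 = Y + 10 / 7 * X + m * (25 / 49) := by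
      have : ∀ i ∈ S, (inner ℝ e (y i)) ^ 2 = x i ^ 2 + 10 / 7 * x i + 25 / 49 := fun i _ => by
        simp only [hx]; ring
      rw [sum_congr rfl this, sum_add_distrib, sum_add_distrib, ← mul_sum, sum_const, nsmul_eq_mul]
    rw [e1, e2] at hg
    have hX0 : 0 ≤ X := sum_nonneg hx0
    have hY0 : 0 ≤ Y := sum_nonneg fun i _ => sq_nonneg _
    have hYX : Y ≤ X ^ 2 := by
      rw [hY, sq X, hX, sum_mul]
      refine sum_le_sum fun i hi => ?_
      rw [sq]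
      exact mul_le_mul_of_nonneg_left (single_le_sum hx0 hi) (hx0 i hi)
    have hCS : X ^ 2 ≤ m * Y := by
      have := sq_sum_le_card_mul_sum_sq (s := S) (f := x)
      exact this
    have hq : (1 - 4011 / 8000 + 4011 / 8000 * m) * Y - 4011 / 8000 * X ^ 2
        + 10 / 7 * (1 - 4011 / 8000) * X ≤
        (1 - 4011 / 8000) * (1 - 4011 / 8000 + m * (4011 / 8000 - 25 / 49)) := by linarith
    have hmY : 0 ≤ (m - 3) * Y := mul_nonneg (by linarith) hY0
    have h4 : (1 + 2 * (4011 / 8000)) * Y ≤ (1 - 4011 / 8000) * (1 + 2 * (4011 / 8000) - 75 / 49)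
      + (4011 / 8000) * X ^ 2 - 10 / 7 * (1 - 4011 / 8000) * X := by linarith
    have h5 : 10 / 7 * X ≤ 1 / 2 := by linarith
    have h6 := three_bound' X Y hX0 hYX h4 h5
    refine lt_of_le_of_lt ?_ h6
    rw [hX, hY, mul_sum, mul_sum, ← sum_add_distrib]
    exact sum_le_sum fun i hi => F_le_quad _ (hs i hi) (hs1 i hi)

end gram

end Pool.Agent.TH61.K13
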