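import Mathlib
import Pool.Agent.TH61.K13.Main

set_option autoImplicit false

namespace Pool.Agent.TH61.K13

open Finset Pool.Agent.Helper843.Kiss

lemma angle (a b : E) (ha : 2 ≤ ‖a‖) (hb : 2 ≤ ‖b‖) (h : 2 ≤ ‖a - b‖) :
    inner ℝ (‖a‖⁻¹ • a) (‖b‖⁻¹ • b) ≤ 1 / 2 + ((‖a‖ - 2) + (‖b‖ - 2)) / 4 := by
  rw [real_inner_smul_left, real_inner_smul_right]
  have h1 := norm_sub_sq_real a b
  set r := ‖a‖
  set s := ‖b‖
  set t := inner ℝ a b
  have hr : 0 < r := by linarith
  have hs : 0 < s := by linarith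
  have h2 : 4 ≤ ‖a - b‖ ^ 2 := by nlinarith
  have h3 : t ≤ (r ^ 2 + s ^ 2 - 4) / 2 := by linarith
  have h4 : 2 * t ≤ r * s * ((r + s - 2) / 2) := by
    have a1 : 0 ≤ (r - 2) * (s - 2) := mul_nonneg (by linarith) (by linarith)
    have a2 : 0 ≤ (r - 2) * (s - 2) * (r - 2) := mul_nonneg a1 (by linarith)
    have a3 : 0 ≤ (r - 2) * (s - 2) * (s - 2) := mul_nonneg a1 (by linarith)
    nlinarith
  have e1 : r⁻¹ * (s⁻¹ * t) = t / (r * s) := by
    field_simp
  rw [e1, div_le_iff₀ (mul_pos hr hs)]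
  nlinarith

theorem lower (x : Fin 13 → E) (h1 : ∀ i, 2 ≤ ‖x i‖) (h2 : ∀ i j, i ≠ j → 2 ≤ ‖x i - x j‖) :
    11 / 2000 < ∑ i, (‖x i‖ - 2) := by
  classical
  by_contra hS
  push Not at hS
  set d : Fin 13 → ℝ := fun i => ‖x i‖ - 2 with hd
  set S0 : ℝ := ∑ i, d i with hS0
  have hd0 : ∀ i, 0 ≤ d i := fun i => sub_nonneg.2 (h1 i)
  have hdS : ∀ i j, i ≠ j → d i + d j ≤ S0 := by
    intro i j hij
    rw [hS0]
    calc d i + d j = ∑ k ∈ {i, j}, d k := (sum_pair hij).symm
      _ ≤ ∑ k, d k := sum_le_sum_of_subset_of_nonneg (subset_univ _) fun k _ _ => hd0 k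
  set y : Fin 13 → E := fun i => ‖x i‖⁻¹ • x i with hy
  have hy1 : ∀ i, ‖y i‖ = 1 := by
    intro i
    have : ‖x i‖ ≠ 0 := by linarith [h1 i]
    rw [hy]
    simp only [norm_smul, norm_inv, norm_norm]
    exact inv_mul_cancel₀ this
  have hin : ∀ i j, i ≠ j → inner ℝ (y i) (y j) ≤ 1 / 2 + (d i + d j) / 4 := fun i j hij =>
    angle (x i) (x j) (h1 i) (h1 j) (h2 i j hij)
  have hin2 : ∀ i j, i ≠ j → inner ℝ (y i) (y j) ≤ 4011 / 8000 := by
    intro i j hij
    have := hin i j hij
    have := hdS i j hij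
    linarith
  have h3 := sum_f y hy1
  rw [Fintype.card_fin] at h3
  have h4 : ∀ i, ∑ j, f (inner ℝ (y i) (y j)) ≤
      f 1 + (BB - 830000) + 81300000 * (11 * d i + S0) := by
    intro i
    set S : Finset (Fin 13) := univ.filter (fun j => 5 / 7 ≤ inner ℝ (-y i) (y j)) with hS
    have hiS : i ∉ S := by
      rw [hS, mem_filter]
      rintro ⟨-, h⟩
      rw [inner_neg_left, real_inner_self_eq_norm_sq, hy1 i] at h
      norm_num at h
    have hl := local_bound' S y (-y i) (by rw [norm_neg, hy1]) (fun j _ => hy1 j)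
      (fun j _ k _ hjk => hin2 j k hjk) (fun j hj => (mem_filter.1 hj).2)
    have e1 : ∀ j, f (inner ℝ (y i) (y j)) ≤
        (if j = i then f 1 else 0) + (if j ∈ S then F (inner ℝ (-y i) (y j)) else 0)
          + (if j = i then 0 else 81300000 * (d i + d j)) := by
      intro j
      by_cases hji : j = i
      · subst hji
        rw [if_pos rfl, if_neg hiS, real_inner_self_eq_norm_sq, hy1 j, if_pos rfl]
        norm_num
      · rw [if_neg hji, if_neg hji]
        have hdd : 0 ≤ d i + d j := add_nonneg (hd0 i) (hd0 j)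
        by_cases hjS : j ∈ S
        · rw [if_pos hjS, inner_neg_left]
          unfold F
          rw [neg_neg]
          linarith
        · rw [if_neg hjS]
          have : ¬ (5 / 7 ≤ inner ℝ (-y i) (y j)) := fun h => hjS (mem_filter.2 ⟨mem_univ _, h⟩)
          rw [inner_neg_left] at this
          have h5 := f_le (inner ℝ (y i) (y j)) (d i + d j) (by linarith) hdd
            ((hdS i j (Ne.symm hji)).trans hS0.symm.le |>.trans (by linarith)) (hin i j (Ne.symm hji))
          linarith
    have e2 : ∑ j, (if j = i then (0 : ℝ) else 81300000 * (d i + d j)) = 81300000 * (11 * d i + S0) := by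
      have e3 : ∀ j, (if j = i then (0 : ℝ) else 81300000 * (d i + d j)) =
          81300000 * (d i + d j) - (if j = i then 81300000 * (d i + d i) else 0) := by
        intro j
        by_cases hji : j = i
        · subst hji; simp
        · simp [hji]
      simp_rw [e3]
      rw [sum_sub_distrib, ← mul_sum, sum_add_distrib, sum_const, card_univ, Fintype.card_fin,
        sum_ite_eq' univ i, if_pos (mem_univ i), nsmul_eq_mul, ← hS0]
      push_cast
      ring
    calc ∑ j, f (inner ℝ (y i) (y j))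
        ≤ ∑ j, ((if j = i then f 1 else 0) + (if j ∈ S then F (inner ℝ (-y i) (y j)) else 0)
          + (if j = i then 0 else 81300000 * (d i + d j))) := sum_le_sum fun j _ => e1 j
      _ = f 1 + ∑ j ∈ S, F (inner ℝ (-y i) (y j)) + 81300000 * (11 * d i + S0) := by
          rw [sum_add_distrib, sum_add_distrib, e2]
          congr 2
          · simp
          · rw [← sum_filter]
            congr 1
            ext j
            simp
      _ ≤ f 1 + (BB - 830000) + 81300000 * (11 * d i + S0) := by linarith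
  have h5 : ∑ i, ∑ j, f (inner ℝ (y i) (y j)) ≤
      ∑ i, (f 1 + (BB - 830000) + 81300000 * (11 * d i + S0)) := sum_le_sum fun i _ => h4 i
  have e4 : ∑ i, (f 1 + (BB - 830000) + 81300000 * (11 * d i + S0)) =
      13 * (f 1 + (BB - 830000)) + 81300000 * (24 * S0) := by
    have e5 : ∀ i, f 1 + (BB - 830000) + 81300000 * (11 * d i + S0) =
        (f 1 + (BB - 830000) + 81300000 * S0) + 894300000 * d i := fun i => by ring
    simp_rw [e5]
    rw [sum_add_distrib, sum_const, ← mul_sum, card_univ, Fintype.card_fin, ← hS0, nsmul_eq_mul]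
    push_cast
    ring
  rw [e4] at h5
  have h6 := f_one
  push_cast at h3
  linarith

end Pool.Agent.TH61.K13
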