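import Mathlib

set_option autoImplicit false

namespace Pool.Agent.TH61.K13

/-- thirteen centres, in units of 10^(-7) -/
def P : Fin 13 → Fin 3 → ℤ := ![
    ![5023816, 15018696, 12214753],
    ![-1677391, 18934775, -6217781],
    ![16420401, 10811155, -3672808],
    ![18097792, -8123621, 2544973],
    ![4804858, 4811924, -18808479],
    ![-15480067, 11157912, 5989048],
    ![-8778860, 7241833, 24421582],
    ![-14335423, 5019978, -13011365],
    ![-13802676, -7776864, 12206829],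
    ![-12658032, -13914797, -6793584],
    ![6701207, -3916079, 18432534],
    ![6482248, -14122852, -12590698],
    ![1677391, -18934775, 6217781]]

/-- upper bounds of their norms -/
def R : Fin 13 → ℤ := ![20000004, 20000004, 20000005, 20000005, 20000004, 20000005, 26943018, 20000004, 20000004, 20000004, 20000004, 20000005, 20000004]

lemma P_far : ∀ i j : Fin 13, i ≠ j → 4 * 10 ^ 14 ≤
    (P i 0 - P j 0) ^ 2 + (P i 1 - P j 1) ^ 2 + (P i 2 - P j 2) ^ 2 := by decide +kernel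

lemma P_norm : ∀ i : Fin 13, 4 * 10 ^ 14 ≤ P i 0 ^ 2 + P i 1 ^ 2 + P i 2 ^ 2 ∧
    P i 0 ^ 2 + P i 1 ^ 2 + P i 2 ^ 2 ≤ R i ^ 2 ∧ 0 ≤ R i := by decide +kernel

lemma R_sum : ∑ i, R i < 266943300 := by decide +kernel

noncomputable def pt (i : Fin 13) : EuclideanSpace ℝ (Fin 3) :=
  !₂[(P i 0 : ℝ) / 10 ^ 7, (P i 1 : ℝ) / 10 ^ 7, (P i 2 : ℝ) / 10 ^ 7]

lemma pt_norm_sq (i : Fin 13) : ‖pt i‖ ^ 2 =
    ((P i 0 ^ 2 + P i 1 ^ 2 + P i 2 ^ 2 : ℤ) : ℝ) / 10 ^ 14 := by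
  rw [EuclideanSpace.norm_sq_eq, Fin.sum_univ_three]
  simp only [pt, Real.norm_eq_abs, sq_abs]
  simp
  ring

lemma pt_dist_sq (i j : Fin 13) : ‖pt i - pt j‖ ^ 2 =
    (((P i 0 - P j 0) ^ 2 + (P i 1 - P j 1) ^ 2 + (P i 2 - P j 2) ^ 2 : ℤ) : ℝ) / 10 ^ 14 := by
  rw [EuclideanSpace.norm_sq_eq, Fin.sum_univ_three]
  simp only [pt, Real.norm_eq_abs, sq_abs]
  simp
  ring

theorem upper : ∃ x : Fin 13 → EuclideanSpace ℝ (Fin 3), (∀ i, 2 ≤ ‖x i‖) ∧
    (∀ i j, i ≠ j → 2 ≤ ‖x i - x j‖) ∧ (∑ i, ‖x i‖) / 13 < 205341 / 100000 := by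
  refine ⟨pt, fun i => ?_, fun i j hij => ?_, ?_⟩
  · apply le_of_sq_le_sq _ (norm_nonneg _)
    rw [pt_norm_sq, le_div_iff₀ (by norm_num)]
    have := (P_norm i).1
    have h : ((4 * 10 ^ 14 : ℤ) : ℝ) ≤ ((P i 0 ^ 2 + P i 1 ^ 2 + P i 2 ^ 2 : ℤ) : ℝ) := by
      exact_mod_cast this
    refine le_trans ?_ h
    norm_num
  · apply le_of_sq_le_sq _ (norm_nonneg _)
    rw [pt_dist_sq, le_div_iff₀ (by norm_num)]
    have := P_far i j hij
    have h : ((4 * 10 ^ 14 : ℤ) : ℝ) ≤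
        (((P i 0 - P j 0) ^ 2 + (P i 1 - P j 1) ^ 2 + (P i 2 - P j 2) ^ 2 : ℤ) : ℝ) := by
      exact_mod_cast this
    refine le_trans ?_ h
    norm_num
  · have h1 : ∀ i, ‖pt i‖ ≤ (R i : ℝ) / 10 ^ 7 := by
      intro i
      have h2 := P_norm i
      apply le_of_sq_le_sq _ (div_nonneg (by exact_mod_cast h2.2.2) (by norm_num))
      rw [pt_norm_sq, div_pow, ← pow_mul]
      refine div_le_div_of_nonneg_right ?_ (by norm_num)
      exact_mod_cast h2.2.1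
    have h3 : ∑ i, ‖pt i‖ ≤ (∑ i, (R i : ℝ)) / 10 ^ 7 := by
      rw [Finset.sum_div]
      exact Finset.sum_le_sum fun i _ => h1 i
    have h4 : (∑ i, (R i : ℝ)) < 266943300 := by
      have := R_sum
      exact_mod_cast this
    rw [div_lt_iff₀ (by norm_num)]
    have h5 : (∑ i, (R i : ℝ)) / 10 ^ 7 < 266943300 / 10 ^ 7 := by
      apply div_lt_div_of_pos_right h4 (by norm_num)
    linarith

end Pool.Agent.TH61.K13
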